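import Pool.Agent.H26.AM.Par

/-!
Module M1 (MP_29bb0a_mp): end values of an eigenvector with light energy. helper26
-/

open Polynomial
open scoped ComplexConjugate

noncomputable section

namespace Pool.Agent.H26.AM

open Pool.Agent.H98.AM

theorem ext_zero (r : ℕ) (ζ : ℂ) (f : ZMod r → ℂ) : H98.AM.ext r ζ f 0 = f 0 := by
  simp [H98.AM.ext]

theorem norm_ext (r : ℕ) {ζ : ℂ} (hζ : ‖ζ‖ = 1) (f : ZMod r → ℂ) (n : ℤ) :
    ‖H98.AM.ext r ζ f n‖ = ‖f n‖ := by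
  unfold H98.AM.ext
  rw [norm_mul, norm_zpow, RCLike.norm_conj, hζ, one_zpow, one_mul]

theorem qcut_zero (hH1 : T_H1) (s : ℕ) [NeZero s] (hs : 3 ≤ s) (ψ : ℤ → ℂ) :
    ‖ψ 0‖ ≤ ‖Qp s (cut s 1 0 ψ : Rg (16 * s))‖ := by
  have h1 := PiLp.norm_apply_le (Qp s (cut s 1 0 ψ : Rg (16 * s))) (0 : ZMod (16 * s))
  refine le_trans (le_of_eq ?_) h1
  have hc : chi s 1 0 0 = 1 := by
    have := (hH1 s 1 0 0 (by omega) le_rfl).2.2.2.2.2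
    apply this
    · have : (0 : ℤ) ≤ s := by positivity
      push_cast
      nlinarith
    · have : (0 : ℤ) < s := by exact_mod_cast (by omega : 0 < s)
      push_cast
      nlinarith
  have : (Qp s (cut s 1 0 ψ : Rg (16 * s))) (0 : ZMod (16 * s)) = ψ 0 := by
    simp [Qp, mop, cut, hc]
  rw [this]

theorem qcut_neg (hH1 : T_H1) (s : ℕ) [NeZero s] (hs : 3 ≤ s) (ψ : ℤ → ℂ) :
    ‖ψ (-1)‖ ≤ ‖Qp s (cut s 1 0 ψ : Rg (16 * s))‖ := by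
  have h1 := PiLp.norm_apply_le (Qp s (cut s 1 0 ψ : Rg (16 * s))) (-1 : ZMod (16 * s))
  refine le_trans (le_of_eq ?_) h1
  have hc : chi s 1 0 (-1) = 1 := by
    have := (hH1 s 1 0 (-1) (by omega) le_rfl).2.2.2.2.2
    have h3 : (3 : ℤ) ≤ s := by exact_mod_cast hs
    apply this
    · push_cast
      nlinarith
    · push_cast
      nlinarith
  have hv : (-1 : ZMod (16 * s)).valMinAbs = -1 := by
    rw [ZMod.valMinAbs_spec]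
    have h3 : (3 : ℤ) ≤ s := by exact_mod_cast hs
    refine ⟨by simp, ?_, ?_⟩
    · push_cast; nlinarith
    · push_cast; nlinarith
  have h1lt : Fact (1 < 16 * s) := ⟨by omega⟩
  have hw : (-1 : ZMod (16 * s)).val = 16 * s - 1 := by
    rw [ZMod.neg_val', ZMod.val_one]
    exact Nat.mod_eq_of_lt (by omega)
  have hm : (16 * s - 1) % s = s - 1 := by
    have : 16 * s - 1 = (s - 1) + s * 15 := by omega
    rw [this, Nat.add_mul_mod_self_left]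
    exact Nat.mod_eq_of_lt (by omega)
  have : (Qp s (cut s 1 0 ψ : Rg (16 * s))) (-1 : ZMod (16 * s)) = ψ (-1) := by
    simp only [Qp, mop, cut, LinearMap.coe_mk, AddHom.coe_mk]
    rw [hw, hm, hv, hc]
    simp
  rw [this]

/-- monotonicity of the cut-offs -/
theorem chi_mono (s L : ℕ) {j j' : ℕ} (h : j ≤ j') (k : ℤ) : chi s L j k ≤ chi s L j' k := by
  unfold chi
  have : (j : ℝ) ≤ j' := by exact_mod_cast h
  apply max_le_max le_rfl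
  apply min_le_min le_rfl
  linarith

theorem chi_nonneg (s L j : ℕ) (k : ℤ) : 0 ≤ chi s L j k := le_max_left _ _

theorem cut_mono (s L : ℕ) {j j' : ℕ} (h : j ≤ j') {N : ℕ} [NeZero N] (ψ : ℤ → ℂ) :
    ‖(cut s L j ψ : Rg N)‖ ≤ ‖(cut s L j' ψ : Rg N)‖ := by
  rw [EuclideanSpace.norm_eq, EuclideanSpace.norm_eq]
  apply Real.sqrt_le_sqrt
  apply Finset.sum_le_sum
  intro n _
  apply pow_le_pow_left₀ (norm_nonneg _)
  simp only [cut, norm_mul, Complex.norm_real, Real.norm_eq_abs,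
    abs_of_nonneg (chi_nonneg _ _ _ _)]
  exact mul_le_mul_of_nonneg_right (chi_mono s L h _) (norm_nonneg _)

theorem core (hB4 : T_B4) (hF5 : T_F5) (hH1 : T_H1) (hJ2 : T_J2) (hK6 : T_K6) (C0 : ℝ)
    (hC : 1 ≤ C0) : ∃ K K2 : ℝ, 1 ≤ K ∧ 0 ≤ K2 ∧ ∀ (px : ℤ) (x : ℕ) (py : ℤ) (y : ℕ)
    (ps : ℤ) (s : ℕ) (pr : ℤ) (r : ℕ) [NeZero s] [NeZero r] (E e Ω m0 : ℝ) (ψ g : ℤ → ℂ),
    Adj C0 px x py y → Adj C0 py y ps s → Adj C0 ps s pr r → K ≤ x →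
    10 * (s : ℝ) ≤ r ∧ 10 ≤ (s : ℝ) ∧ (|E| ≤ 5 →
    (∀ n, lop (pr / r) (1 / (2 * r)) ψ n = E * ψ n + g n) →
    (s : ℝ) ^ (-2 - 1 / 80 : ℝ) ≤ e → e ≤ 1 / s →
    NoHeavy px x E ((x : ℝ) ^ (-(7 / 4) : ℝ)) → 0 ≤ Ω →
    (∀ d, e ≤ d → 2 * s * bm (Dl ps s) (om (Dl ps s)) E d ≤ Ω * d) →
    (∀ j ≤ 3, ‖(cut s 1 j ψ : Rg (16 * s))‖ ≤ m0) →
    (∀ j ≤ 2, ‖(cut s 1 j g : Rg (16 * s))‖ ≤ e * m0) →
    ‖ψ 0‖ ≤ K2 * Real.sqrt (Ω * e) * m0 ∧ ‖ψ (-1)‖ ≤ K2 * Real.sqrt (Ω * e) * m0) := by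
  obtain ⟨Kj, s0, hj⟩ := hJ2 C0 hC
  obtain ⟨K6, hK61, h6⟩ := hK6 C0 hC
  obtain ⟨K, hK1, hpar⟩ := par hC hK61 s0
  refine ⟨K + K6, |Kj|, by linarith, abs_nonneg _, ?_⟩
  intro px x py y ps s pr r _ _ E e Ω m0 ψ g hxy hys hsr hKx
  have P := hpar px x py y ps s pr r hxy hys hsr (by linarith)
  have hs3 : 3 ≤ s := by
    have := P.s1
    have h10 : ((10 : ℕ) : ℝ) ≤ s := by exact_mod_cast this
    have := Nat.cast_le.mp h10
    omega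
  refine ⟨P.sr, P.s1, ?_⟩
  intro hE hlop he1 he2 hNH hΩ hbm hm0 hg
  have hs0 : (0 : ℝ) < s := by linarith [P.s1]
  obtain ⟨v, w, hvw⟩ := (hB4 (16 * s) (rb (ps / s) 0 (16 * s))).1
  have hvw' : IsEB (Tr (ps / s) 0 (16 * s)) v w := hvw
  have hVH := h6 px x py y ps s 16 0 E (Fin (16 * s)) v w hxy hys (by linarith) hNH hvw'
  have hOm : OmH s v w E e Ω := by
    intro d hd f
    refine (hF5 ps s 16 (Fin (16 * s)) v w hys.cop' hs3 hvw' E d f).trans ?_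
    exact mul_le_mul_of_nonneg_right (hbm d hd) (by positivity)
  have hm : 0 ≤ m0 := (norm_nonneg _).trans (hm0 0 (by norm_num))
  have hr0 : (0 : ℝ) < r := by linarith [P.sr]
  have hφ : |(1 / (2 * r) : ℝ)| ≤ C0 / s ^ 2 := by
    rw [abs_of_nonneg (by positivity)]
    exact P.ph
  have hss0 : s0 ≤ s := by exact_mod_cast P.ss0
  have hv2 : (s : ℝ) ^ (-2 : ℝ) * (K6 * (x : ℝ) ^ (-(1 / 4) : ℝ)) ≤ e := P.v2.trans he1
  have main := hj ps s (pr / r) (1 / (2 * r)) E ψ g (Fin (16 * s)) v w e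
    ((y : ℝ) ^ (-(3 / 2) : ℝ)) (K6 * (x : ℝ) ^ (-(1 / 4) : ℝ)) Ω m0 hss0 hys.cop'
    (adj_dist hC hsr (by linarith [P.s1])) hφ hE hlop hvw' (P.e1.trans he1) he2 P.D1 P.D2
    (by positivity) P.v1 hv2 hVH hΩ hOm hm0 hg
  have main2 : ‖Qp s (cut s 1 0 ψ : Rg (16 * s))‖ ≤ |Kj| * Real.sqrt (Ω * e) * m0 := by
    refine main.trans ?_
    apply mul_le_mul_of_nonneg_right _ hm
    exact mul_le_mul_of_nonneg_right (le_abs_self _) (Real.sqrt_nonneg _)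
  exact ⟨(qcut_zero hH1 s hs3 ψ).trans main2, (qcut_neg hH1 s hs3 ψ).trans main2⟩

/-- a bound for the bonds -/
theorem norm_bnd_le (β θ : ℝ) (n : ℤ) : ‖bnd β θ n‖ ≤ 2 := by
  unfold bnd ex
  refine (norm_sub_le _ _).trans ?_
  have : ‖Complex.exp (2 * Real.pi * ((n * β + θ : ℝ) : ℂ) * Complex.I)‖ = 1 := by
    have := Complex.norm_exp_ofReal_mul_I (2 * Real.pi * (n * β + θ))
    push_cast at this ⊢
    exact this
  rw [this]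
  norm_num

theorem ev_le (hB4 : T_B4) (p : ℤ) (r : ℕ) [NeZero r] (θ : ℝ) {ζ : ℂ} (hζ : ‖ζ‖ = 1) {ι : Type}
    [Fintype ι] (u : OrthonormalBasis ι ℂ (Rg r)) (ev : ι → ℝ) (h : IsEB (Fi p r θ ζ) u ev)
    (i : ι) : |ev i| ≤ 4 := by
  have := ((hB4 r (fb p r θ ζ)).2 2 (fun n => ?_)).2 ι u ev h i
  · linarith
  · unfold fb
    rw [norm_mul]
    have h1 : ‖(if n = 0 then ζ else 1 : ℂ)‖ = 1 := by
      split_ifs
      · exact hζ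
      · simp
    rw [h1, one_mul]
    exact norm_bnd_le _ _ _

theorem m1 (hB4 : T_B4) (hF1 : T_F1) (hF5 : T_F5) (hH1 : T_H1) (hJ2 : T_J2) (hK6 : T_K6) :
    T_M1 := by
  intro C0 hC
  obtain ⟨K, K2, hK1, hK2, hcore⟩ := core hB4 hF5 hH1 hJ2 hK6 C0 hC
  refine ⟨K + K2 ^ 2, by nlinarith, ?_⟩
  intro px x py y ps s pr r _ _ ι _ u ev hxy hys hsr hKx hEB i hNH hbm
  have hI : ‖Complex.I‖ = 1 := Complex.norm_I
  set ψ : ℤ → ℂ := H98.AM.ext r Complex.I (u i) with hψ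
  set m0 : ℝ := ‖(cut s 1 3 ψ : Rg (16 * s))‖ with hm0
  obtain ⟨hsr', hs10, hc⟩ := hcore px x py y ps s pr r (ev i) ((s : ℝ) ^ (-2 - 1 / 80 : ℝ))
    ((s : ℝ) ^ (1 + 1 / 400 : ℝ)) m0 ψ (fun _ => 0) hxy hys hsr (by nlinarith)
  have hs0 : (0 : ℝ) < s := by linarith
  have hs1 : (1 : ℝ) ≤ s := by linarith
  have hE : |ev i| ≤ 5 := (ev_le hB4 pr r _ hI u ev hEB i).trans (by norm_num)
  have hm0' : 0 ≤ m0 := norm_nonneg _
  have hlop : ∀ n, lop (pr / r) (1 / (2 * r)) ψ n = (ev i : ℂ) * ψ n + 0 := by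
    intro n
    have h := hF1 pr r (1 / (2 * r)) Complex.I (u i) n hI
    rw [hψ, h, hEB i]
    simp only [H98.AM.ext, add_zero]
    simp only [PiLp.smul_apply, smul_eq_mul]
    ring
  have he : (s : ℝ) ^ (-2 - 1 / 80 : ℝ) ≤ 1 / s := by
    calc (s : ℝ) ^ (-2 - 1 / 80 : ℝ) ≤ (s : ℝ) ^ (-1 : ℝ) :=
          Real.rpow_le_rpow_of_exponent_le hs1 (by norm_num)
      _ = 1 / s := by rw [Real.rpow_neg_one, one_div]
  have hb : ∀ d, (s : ℝ) ^ (-2 - 1 / 80 : ℝ) ≤ d →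
      2 * s * bm (Dl ps s) (om (Dl ps s)) (ev i) d ≤ (s : ℝ) ^ (1 + 1 / 400 : ℝ) * d := by
    intro d hd
    have h := hbm d hd
    calc 2 * s * bm (Dl ps s) (om (Dl ps s)) (ev i) d
        ≤ 2 * s * ((s : ℝ) ^ (1 / 400 : ℝ) * d / 2) :=
          mul_le_mul_of_nonneg_left h (by positivity)
      _ = ((s : ℝ) ^ (1 : ℝ) * (s : ℝ) ^ (1 / 400 : ℝ)) * d := by rw [Real.rpow_one]; ring
      _ = _ := by rw [← Real.rpow_add hs0]
  have hg : ∀ j ≤ 2, ‖(cut s 1 j (fun _ => 0) : Rg (16 * s))‖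
      ≤ (s : ℝ) ^ (-2 - 1 / 80 : ℝ) * m0 := by
    intro j hj
    have : (cut s 1 j (fun _ => 0) : Rg (16 * s)) = 0 := by
      ext n
      simp [cut]
    rw [this, norm_zero]
    positivity
  obtain ⟨h0, h1⟩ := hc hE hlop le_rfl he hNH (by positivity) hb
    (fun j hj => cut_mono s 1 hj ψ) hg
  have hn : ‖ψ 0‖ = ‖u i 0‖ := by rw [hψ, ext_zero]
  have hn1 : ‖ψ (-1)‖ = ‖u i (-1)‖ := by rw [hψ, norm_ext r hI]; simp
  rw [hn] at h0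
  rw [hn1] at h1
  have hpos : 0 ≤ K2 * Real.sqrt ((s : ℝ) ^ (1 + 1 / 400 : ℝ) * (s : ℝ) ^ (-2 - 1 / 80 : ℝ)) * m0 := by
    positivity
  calc ‖u i 0‖ * ‖u i (-1)‖ ≤
      (K2 * Real.sqrt ((s : ℝ) ^ (1 + 1 / 400 : ℝ) * (s : ℝ) ^ (-2 - 1 / 80 : ℝ)) * m0) *
      (K2 * Real.sqrt ((s : ℝ) ^ (1 + 1 / 400 : ℝ) * (s : ℝ) ^ (-2 - 1 / 80 : ℝ)) * m0) :=
        mul_le_mul h0 h1 (norm_nonneg _) hpos
    _ = K2 ^ 2 * (Real.sqrt ((s : ℝ) ^ (1 + 1 / 400 : ℝ) * (s : ℝ) ^ (-2 - 1 / 80 : ℝ))) ^ 2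
          * m0 ^ 2 := by ring
    _ = K2 ^ 2 * (s : ℝ) ^ (-1 + 1 / 400 - 1 / 80 : ℝ) * m0 ^ 2 := by
        rw [Real.sq_sqrt (by positivity), ← Real.rpow_add hs0]
        norm_num
    _ ≤ (K + K2 ^ 2) * (s : ℝ) ^ (-1 + 1 / 400 - 1 / 80 : ℝ) * m0 ^ 2 := by
        apply mul_le_mul_of_nonneg_right _ (by positivity)
        apply mul_le_mul_of_nonneg_right _ (by positivity)
        linarith

end Pool.Agent.H26.AM
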