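import Pool.Agent.H26.AM.M1

/-!
Module M2 (MP_29bb0a_mp): end values of the eigenvectors near the centre of a band. helper26
-/

open Polynomial
open scoped ComplexConjugate

noncomputable section

namespace Pool.Agent.H26.AM

open Pool.Agent.H98.AM

theorem onb_norm_sq {r : ℕ} [NeZero r] {ι : Type} [Fintype ι] (u : OrthonormalBasis ι ℂ (Rg r))
    (I : Finset ι) (c : ι → ℂ) : ‖∑ i ∈ I, c i • u i‖ ^ 2 = ∑ i ∈ I, ‖c i‖ ^ 2 := by
  have h := u.orthonormal.inner_sum c c I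
  have h2 : (‖∑ i ∈ I, c i • u i‖ ^ 2 : ℂ) = ((∑ i ∈ I, ‖c i‖ ^ 2 : ℝ) : ℂ) := by
    rw [inner_self_eq_norm_sq_to_K] at h
    push_cast
    simp only [Complex.coe_algebraMap] at h
    rw [h]
    apply Finset.sum_congr rfl
    intro i _
    rw [Complex.conj_mul']
  exact_mod_cast h2

/-- mass of `om` near a root -/
theorem bm_root (hD2 : T_D2) (hD9 : T_D9) {s : ℕ} {D : ℝ[X]} (hD : Disc s D) (hs : 1 ≤ s) {e : ℝ}
    (he : D.eval e = 0) {d : ℝ} (hd : om D e ≤ d) : bm D (om D) e d ≤ 3 / 2 * d := by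
  have hom : ∀ e, 0 ≤ om D e := fun e => by unfold om; positivity
  have hd0 : 0 ≤ d := (hom e).trans hd
  have hne : D ≠ 0 := hD.mon.ne_zero
  have h := hD9 s D hD hs ((D.roots.toFinset).filter (fun e' => |e' - e| ≤ d)) (e - d) (e + d) d
    ?_ (by linarith) hd0
  · unfold bm
    refine h.trans ?_
    linarith
  · intro e' he'
    rw [Finset.mem_filter, Multiset.mem_toFinset, Polynomial.mem_roots hne] at he'
    obtain ⟨h1, h2⟩ := he'
    have h1' : D.eval e' = 0 := h1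
    rw [abs_le] at h2
    refine ⟨h1', by linarith, by linarith, ?_⟩
    by_cases hee : e = e'
    · rw [← hee]; exact hd
    · have h3 := hD2 s D hD hs e e' he h1' hee
      have h4 : |e - e'| ≤ d := by rw [abs_le]; constructor <;> linarith
      have := hom e
      linarith

/-- the sum of the squares of the values at one site -/
theorem sum_site (hF1 : T_F1) (hH9 : T_H9) (s r : ℕ) [NeZero s] [NeZero r] (pr : ℤ) (ι : Type)
    [Fintype ι] (u : OrthonormalBasis ι ℂ (Rg r)) (ev : ι → ℝ)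
    (hEB : IsEB (Fi pr r (1 / (2 * r)) Complex.I) u ev) (hs : 1 ≤ s) (hsr : 10 * s ≤ r)
    (I : Finset ι) (e w : ℝ) (hI : ∀ i ∈ I, |ev i - e| ≤ w) (A : ℝ) (hA : 0 ≤ A) (m : ℤ)
    (hcore : ∀ (ψ g : ℤ → ℂ) (m0 : ℝ),
      (∀ n, lop (pr / r) (1 / (2 * r)) ψ n = e * ψ n + g n) →
      (∀ j ≤ 3, ‖(cut s 1 j ψ : Rg (16 * s))‖ ≤ m0) →
      (∀ j ≤ 2, ‖(cut s 1 j g : Rg (16 * s))‖ ≤ w * m0) → ‖ψ m‖ ≤ A * m0) :
    ∑ i ∈ I, ‖u i m‖ ^ 2 ≤ A ^ 2 := by
  set c : ι → ℂ := fun i => conj (u i m) with hc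
  set Ψ : Rg r := ∑ i ∈ I, c i • u i with hΨ
  set G : Rg r := ∑ i ∈ I, (c i * ((ev i - e : ℝ) : ℂ)) • u i with hG
  have hcn : ∀ i, ‖c i‖ = ‖u i m‖ := fun i => by rw [hc]; simp
  have hnΨ : ‖Ψ‖ ^ 2 = ∑ i ∈ I, ‖u i m‖ ^ 2 := by
    rw [hΨ, onb_norm_sq]
    simp only [hcn]
  have hI1 : ‖Complex.I‖ = 1 := Complex.norm_I
  by_cases hIe : I.Nonempty
  swap
  · rw [Finset.not_nonempty_iff_eq_empty] at hIe
    rw [hIe]
    simp
    positivity
  have hw : 0 ≤ w := by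
    obtain ⟨i, hi⟩ := hIe
    exact (abs_nonneg _).trans (hI i hi)
  have hnG : ‖G‖ ≤ w * ‖Ψ‖ := by
    apply le_of_sq_le_sq _ (by positivity)
    rw [mul_pow, hnΨ, hG, onb_norm_sq, Finset.mul_sum]
    apply Finset.sum_le_sum
    intro i hi
    rw [norm_mul, hcn, mul_pow, mul_comm]
    apply mul_le_mul_of_nonneg_right _ (by positivity)
    rw [Complex.norm_real, Real.norm_eq_abs]
    exact pow_le_pow_left₀ (abs_nonneg _) (hI i hi) 2
  have hFi : Fi pr r (1 / (2 * r)) Complex.I Ψ = (e : ℂ) • Ψ + G := by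
    rw [hΨ, hG, map_sum, Finset.smul_sum, ← Finset.sum_add_distrib]
    apply Finset.sum_congr rfl
    intro i _
    rw [map_smul, hEB i, smul_smul, smul_smul, ← add_smul]
    congr 1
    push_cast
    ring
  have hcut : ∀ (f : Rg r) (j : ℕ), j ≤ 3 →
      ‖(cut s 1 j (H98.AM.ext r Complex.I f) : Rg (16 * s))‖ ≤ ‖f‖ := by
    intro f j hj
    have h := (hH9 s 1 j r (16 * s) Complex.I ι u 0 hs le_rfl hI1).2.2 (by nlinarith) f
    simpa using h
  have h1 := hcore (H98.AM.ext r Complex.I Ψ) (H98.AM.ext r Complex.I G) ‖Ψ‖ ?_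
    (fun j hj => hcut Ψ j hj) (fun j hj => (hcut G j (by omega)).trans hnG)
  · rw [norm_ext r hI1] at h1
    have h2 : Ψ (m : ZMod r) = ((∑ i ∈ I, ‖u i m‖ ^ 2 : ℝ) : ℂ) := by
      rw [hΨ]
      simp only [WithLp.ofLp_sum, Finset.sum_apply, PiLp.smul_apply, smul_eq_mul]
      push_cast
      apply Finset.sum_congr rfl
      intro i _
      rw [hc]
      simp only
      rw [Complex.conj_mul']
    rw [h2, Complex.norm_real, Real.norm_eq_abs, abs_of_nonneg (by positivity), ← hnΨ] at h1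
    rw [← hnΨ]
    rcases eq_or_lt_of_le (norm_nonneg Ψ) with h0 | h0
    · rw [← h0]; simp; positivity
    · have h3 : ‖Ψ‖ ≤ A := by
        have : ‖Ψ‖ * ‖Ψ‖ ≤ A * ‖Ψ‖ := by nlinarith
        exact le_of_mul_le_mul_right this h0
      exact pow_le_pow_left₀ (norm_nonneg _) h3 2
  · intro n
    rw [hF1 pr r (1 / (2 * r)) Complex.I Ψ n hI1, hFi]
    simp only [H98.AM.ext]
    simp only [PiLp.add_apply, PiLp.smul_apply, smul_eq_mul]
    ring

theorem exB : ∃ B : ℝ, 1 ≤ B ∧ ∀ s : ℝ, B ≤ s → 8 ≤ s ^ (1 / 400 : ℝ) := by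
  refine ⟨(8 : ℝ) ^ (400 : ℝ), Real.one_le_rpow (by norm_num) (by norm_num), ?_⟩
  intro s hs
  calc (8 : ℝ) = ((8 : ℝ) ^ (400 : ℝ)) ^ (1 / 400 : ℝ) := by
        rw [← Real.rpow_mul (by norm_num)]
        norm_num
    _ ≤ _ := Real.rpow_le_rpow (by positivity) hs (by norm_num)

theorem m2 (hB4 : T_B4) (hC5 : T_C5) (hC6 : T_C6) (hD2 : T_D2) (hD9 : T_D9) (hF1 : T_F1)
    (hF5 : T_F5) (hH1 : T_H1) (hH9 : T_H9) (hJ2 : T_J2) (hK6 : T_K6) : T_M2 := by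
  intro C0 hC
  obtain ⟨K, K2, hK1, hK2, hcore⟩ := core hB4 hF5 hH1 hJ2 hK6 C0 hC
  obtain ⟨B, hB1, hB8⟩ := exB
  refine ⟨K + 6 * K2 ^ 2 + 10 * C0 + B, ?_, ?_⟩
  · nlinarith [sq_nonneg K2]
  intro px x py y ps s pr r _ _ ι _ u ev hxy hys hsr hKx hEB e he hom hNH
  have hK22 := sq_nonneg K2
  have hxC : 10 * C0 ≤ (x : ℝ) := by linarith
  have hxy' := adj_grow hC hxy hxC
  have hys' := adj_grow hC hys (by linarith)
  have hs8 : B ≤ s := by linarith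
  have hs0 : (0 : ℝ) < s := by linarith
  have h88 : (8 : ℝ) ≤ (s : ℝ) ^ (1 / 400 : ℝ) := hB8 s hs8
  have h8s : 8 * (s : ℝ) ^ (-(1 / 400) : ℝ) ≤ 1 := by
    rw [Real.rpow_neg hs0.le, mul_inv_le_iff₀ (by positivity)]
    linarith
  have hs3 : 3 ≤ s := by
    have h10 : ((3 : ℕ) : ℝ) ≤ s := by push_cast; linarith
    exact Nat.cast_le.mp h10
  have hD := hC5 ps s hys.cop' hs3
  obtain ⟨-, hr4, hsum, hpos⟩ := hC6 ps s hys.cop' hs3
  have he0 : (Dl ps s).eval e = 0 := by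
    have h := he
    unfold rts at h
    rw [Multiset.mem_toFinset, Polynomial.mem_roots hD.mon.ne_zero] at h
    exact h
  have homle : om (Dl ps s) e ≤ 1 / s := by
    rw [← hsum]
    exact Finset.single_le_sum (fun i hi => (hpos i hi).le) he
  have hom0 := hpos e he
  set I := Finset.univ.filter
      (fun i => |ev i - e| ≤ 8 * (s : ℝ) ^ (-(1 / 400) : ℝ) * om (Dl ps s) e) with hIdef
  have hI : ∀ i ∈ I, |ev i - e| ≤ om (Dl ps s) e := by
    intro i hi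
    rw [hIdef, Finset.mem_filter] at hi
    refine hi.2.trans ?_
    calc 8 * (s : ℝ) ^ (-(1 / 400) : ℝ) * om (Dl ps s) e ≤ 1 * om (Dl ps s) e :=
          mul_le_mul_of_nonneg_right h8s hom0.le
      _ = _ := one_mul _
  have hc : ∀ (ψ g : ℤ → ℂ) (m0 : ℝ), _ := fun ψ g m0 =>
    hcore px x py y ps s pr r e (om (Dl ps s) e) (3 * s) m0 ψ g hxy hys hsr (by linarith)
  obtain ⟨hsr', hs10, -⟩ := hc (fun _ => 0) (fun _ => 0) 0
  have hsrN : 10 * s ≤ r := by exact_mod_cast hsr'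
  have hE : |e| ≤ 5 := (hr4 e he).trans (by norm_num)
  have hb : ∀ d, om (Dl ps s) e ≤ d →
      2 * s * bm (Dl ps s) (om (Dl ps s)) e d ≤ 3 * s * d := by
    intro d hd
    have h := bm_root hD2 hD9 hD (by omega) he0 hd
    calc 2 * s * bm (Dl ps s) (om (Dl ps s)) e d ≤ 2 * s * (3 / 2 * d) :=
          mul_le_mul_of_nonneg_left h (by positivity)
      _ = _ := by ring
  have hgen : ∀ (ψ g : ℤ → ℂ) (m0 : ℝ),
      (∀ n, lop (pr / r) (1 / (2 * r)) ψ n = e * ψ n + g n) →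
      (∀ j ≤ 3, ‖(cut s 1 j ψ : Rg (16 * s))‖ ≤ m0) →
      (∀ j ≤ 2, ‖(cut s 1 j g : Rg (16 * s))‖ ≤ om (Dl ps s) e * m0) →
      ‖ψ 0‖ ≤ K2 * Real.sqrt (3 * s * om (Dl ps s) e) * m0 ∧
      ‖ψ (-1)‖ ≤ K2 * Real.sqrt (3 * s * om (Dl ps s) e) * m0 := by
    intro ψ g m0 h1 h2 h3
    exact (hc ψ g m0).2.2 hE h1 hom homle hNH (by positivity) hb h2 h3
  have h0 := sum_site hF1 hH9 s r pr ι u ev hEB (by omega) hsrN I e _ hI
    (K2 * Real.sqrt (3 * s * om (Dl ps s) e)) (by positivity) 0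
    (fun ψ g m0 h1 h2 h3 => (hgen ψ g m0 h1 h2 h3).1)
  have h1 := sum_site hF1 hH9 s r pr ι u ev hEB (by omega) hsrN I e _ hI
    (K2 * Real.sqrt (3 * s * om (Dl ps s) e)) (by positivity) (-1)
    (fun ψ g m0 h1 h2 h3 => (hgen ψ g m0 h1 h2 h3).2)
  rw [mul_pow, Real.sq_sqrt (by positivity)] at h0 h1
  simp only [Int.cast_zero, Int.cast_neg, Int.cast_one] at h0 h1
  rw [Finset.sum_add_distrib]
  have hfin : K2 ^ 2 * (3 * s * om (Dl ps s) e) + K2 ^ 2 * (3 * s * om (Dl ps s) e)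
      ≤ (K + 6 * K2 ^ 2 + 10 * C0 + B) * s * om (Dl ps s) e := by
    have h3 : 0 ≤ s * om (Dl ps s) e := by positivity
    have h4 : (6 * K2 ^ 2) * (s * om (Dl ps s) e)
        ≤ (K + 6 * K2 ^ 2 + 10 * C0 + B) * (s * om (Dl ps s) e) := by
      apply mul_le_mul_of_nonneg_right _ h3
      linarith
    calc _ = (6 * K2 ^ 2) * (s * om (Dl ps s) e) := by ring
      _ ≤ _ := h4
      _ = _ := by ring
  exact (add_le_add h0 h1).trans hfin

end Pool.Agent.H26.AM
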