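import Pool.Agent.H98.AM.Targets

/-!
Numerical parameters used in the modules M1, M2 (MP_29bb0a_mp). helper26
-/

open Polynomial
open scoped ComplexConjugate

noncomputable section

namespace Pool.Agent.H26.AM

open Pool.Agent.H98.AM

theorem adj_grow {C0 : ℝ} (hC : 1 ≤ C0) {p : ℤ} {s : ℕ} {p' : ℤ} {r : ℕ} (h : Adj C0 p s p' r)
    (hs : 10 * C0 ≤ s) : 10 * (s : ℝ) ≤ r := by
  have h1 := h.low
  have h2 : (10 * C0) * s ≤ C0 * r := by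
    calc (10 * C0) * s ≤ s * s := by
          apply mul_le_mul_of_nonneg_right hs (by positivity)
      _ = (s : ℝ) ^ 2 := by ring
      _ ≤ _ := h1
  have h3 : C0 * (10 * s) ≤ C0 * r := by linarith
  exact le_of_mul_le_mul_left h3 (by linarith)

theorem adj_dist {C0 : ℝ} (hC : 1 ≤ C0) {p : ℤ} {s : ℕ} {p' : ℤ} {r : ℕ} (h : Adj C0 p s p' r)
    (hs : 1 ≤ (s : ℝ)) : |(p' / r : ℝ) - p / s| ≤ C0 / s ^ 3 := by
  have h1 := h.low
  have hs2 : 0 < (s : ℝ) ^ 2 := by positivity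
  have hr : 0 < (r : ℝ) := by
    by_contra hr
    push Not at hr
    have : C0 * r ≤ 0 := mul_nonpos_of_nonneg_of_nonpos (by linarith) hr
    linarith
  have h2 : (p' / r : ℝ) - p / s = -((p * r - p' * s : ℤ) : ℝ) / (r * s) := by
    push_cast
    field_simp
    ring
  have h3 : |((p * r - p' * s : ℤ) : ℝ)| = 1 := by
    rw [← Int.cast_abs, h.det, Int.cast_one]
  rw [h2, abs_div, abs_neg, h3, abs_of_pos (by positivity : 0 < (r : ℝ) * s)]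
  rw [div_le_div_iff₀ (by positivity) (by positivity)]
  nlinarith

/-- all numerical facts used in `M1` and `M2` -/
structure Par (C0 K6 s0 : ℝ) (x y s r : ℝ) : Prop where
  x1 : 10 ≤ x
  y1 : 10 ≤ y
  s1 : 10 ≤ s
  sr : 10 * s ≤ r
  ss0 : s0 ≤ s
  D1 : s ^ (-(4 / 5) : ℝ) ≤ y ^ (-(3 / 2) : ℝ)
  D2 : y ^ (-(3 / 2) : ℝ) ≤ 16
  v1 : K6 * x ^ (-(1 / 4) : ℝ) ≤ 2
  v2 : s ^ (-2 : ℝ) * (K6 * x ^ (-(1 / 4) : ℝ)) ≤ s ^ (-2 - 1 / 80 : ℝ)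
  e1 : s ^ (-(21 / 10) : ℝ) ≤ s ^ (-2 - 1 / 80 : ℝ)
  e2 : s ^ (-2 - 1 / 80 : ℝ) ≤ 1 / s
  ph : 1 / (2 * r) ≤ C0 / s ^ 2

theorem par {C0 K6 : ℝ} (hC : 1 ≤ C0) (hK6 : 1 ≤ K6) (s0 : ℕ) : ∃ K : ℝ, 1 ≤ K ∧
    ∀ (px : ℤ) (x : ℕ) (py : ℤ) (y : ℕ) (ps : ℤ) (s : ℕ) (pr : ℤ) (r : ℕ),
    Adj C0 px x py y → Adj C0 py y ps s → Adj C0 ps s pr r → K ≤ x →
    Par C0 K6 s0 x y s r := by
  refine ⟨10 * C0 ^ 8 + K6 ^ 6 + s0 + 10, ?_, ?_⟩
  · have : 0 ≤ C0 ^ 8 := by positivity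
    have : 0 ≤ K6 ^ 6 := by positivity
    have : (0 : ℝ) ≤ s0 := by positivity
    linarith
  intro px x py y ps s pr r hxy hys hsr hK
  have c8 : C0 ≤ C0 ^ 8 := le_self_pow₀ hC (by norm_num)
  have c3 : C0 ^ 3 ≤ C0 ^ 8 := pow_le_pow_right₀ hC (by norm_num)
  have k6 : 1 ≤ K6 ^ 6 := one_le_pow₀ hK6
  have s00 : (0 : ℝ) ≤ s0 := by positivity
  have hxC : 10 * C0 ≤ (x : ℝ) := by linarith
  have hxy' := adj_grow hC hxy hxC
  have hyC : 10 * C0 ≤ (y : ℝ) := by linarith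
  have hys' := adj_grow hC hys hyC
  have hsC : 10 * C0 ≤ (s : ℝ) := by linarith
  have hsr' := adj_grow hC hsr hsC
  have hx0 : (0 : ℝ) < x := by linarith
  have hy0 : (0 : ℝ) < y := by linarith
  have hs0 : (0 : ℝ) < s := by linarith
  have hr0 : (0 : ℝ) < r := by linarith
  have C00 : 0 < C0 := by linarith
  have hx1 : (1 : ℝ) ≤ x := by linarith
  have hy1 : (1 : ℝ) ≤ y := by linarith
  have hs1 : (1 : ℝ) ≤ s := by linarith
  refine ⟨by linarith, by linarith, by linarith, hsr', by linarith, ?_, ?_, ?_, ?_, ?_, ?_, ?_⟩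
  · -- `y^(3/2) ≤ s^(4/5)`
    have h1 : C0 ≤ (y : ℝ) ^ (1 / 8 : ℝ) := by
      have : C0 ^ 8 ≤ (y : ℝ) := by linarith [pow_pos C00 8]
      calc C0 = (C0 ^ 8) ^ (1 / 8 : ℝ) := by
            rw [← Real.rpow_natCast, ← Real.rpow_mul C00.le]; norm_num
        _ ≤ _ := Real.rpow_le_rpow (by positivity) this (by norm_num)
    have h2 : (y : ℝ) ^ (15 / 8 : ℝ) ≤ s := by
      have h3 := hys.low
      have h4 : (y : ℝ) ^ 2 = (y : ℝ) ^ (1 / 8 : ℝ) * (y : ℝ) ^ (15 / 8 : ℝ) := by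
        rw [← Real.rpow_natCast, ← Real.rpow_add hy0]; norm_num
      have h5 : (y : ℝ) ^ (1 / 8 : ℝ) * (y : ℝ) ^ (15 / 8 : ℝ) ≤ (y : ℝ) ^ (1 / 8 : ℝ) * s := by
        rw [← h4]
        exact h3.trans (mul_le_mul_of_nonneg_right h1 hs0.le)
      exact le_of_mul_le_mul_left h5 (by positivity)
    have h6 : (y : ℝ) ^ (3 / 2 : ℝ) ≤ (s : ℝ) ^ (4 / 5 : ℝ) := by
      calc (y : ℝ) ^ (3 / 2 : ℝ) = ((y : ℝ) ^ (15 / 8 : ℝ)) ^ (4 / 5 : ℝ) := by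
            rw [← Real.rpow_mul hy0.le]; norm_num
        _ ≤ _ := Real.rpow_le_rpow (by positivity) h2 (by norm_num)
    rw [Real.rpow_neg hs0.le, Real.rpow_neg hy0.le]
    exact inv_anti₀ (by positivity) h6
  · calc (y : ℝ) ^ (-(3 / 2) : ℝ) ≤ 1 := Real.rpow_le_one_of_one_le_of_nonpos hy1 (by norm_num)
      _ ≤ 16 := by norm_num
  · have h1 : K6 ≤ (x : ℝ) ^ (1 / 4 : ℝ) := by
      have h2 : K6 ^ 4 ≤ (x : ℝ) := by
        have : K6 ^ 4 ≤ K6 ^ 6 := pow_le_pow_right₀ hK6 (by norm_num)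
        linarith [pow_pos C00 8]
      calc K6 = (K6 ^ 4) ^ (1 / 4 : ℝ) := by
            rw [← Real.rpow_natCast, ← Real.rpow_mul (by linarith)]; norm_num
        _ ≤ _ := Real.rpow_le_rpow (by positivity) h2 (by norm_num)
    rw [Real.rpow_neg hx0.le]
    have : K6 * ((x : ℝ) ^ (1 / 4 : ℝ))⁻¹ ≤ 1 := by
      rw [mul_inv_le_iff₀ (by positivity)]; linarith
    linarith
  · have h1 : K6 ≤ (x : ℝ) ^ (3 / 16 : ℝ) := by
      have h2 : K6 ^ 6 ≤ (x : ℝ) := by linarith [pow_pos C00 8]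
      calc K6 = (K6 ^ 6) ^ (1 / 6 : ℝ) := by
            rw [← Real.rpow_natCast, ← Real.rpow_mul (by linarith)]; norm_num
        _ ≤ (x : ℝ) ^ (1 / 6 : ℝ) := Real.rpow_le_rpow (by positivity) h2 (by norm_num)
        _ ≤ _ := Real.rpow_le_rpow_of_exponent_le hx1 (by norm_num)
    have h3 : (s : ℝ) ≤ (x : ℝ) ^ 5 := by
      calc (s : ℝ) ≤ C0 * y ^ 2 := hys.upp
        _ ≤ C0 * (C0 * x ^ 2) ^ 2 := by
            apply mul_le_mul_of_nonneg_left _ C00.le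
            exact pow_le_pow_left₀ hy0.le hxy.upp 2
        _ = C0 ^ 3 * x ^ 4 := by ring
        _ ≤ x * x ^ 4 := by
            apply mul_le_mul_of_nonneg_right _ (by positivity)
            linarith [pow_pos C00 8]
        _ = _ := by ring
    have h4 : (s : ℝ) ^ (1 / 80 : ℝ) ≤ (x : ℝ) ^ (1 / 16 : ℝ) := by
      calc (s : ℝ) ^ (1 / 80 : ℝ) ≤ ((x : ℝ) ^ 5) ^ (1 / 80 : ℝ) :=
            Real.rpow_le_rpow hs0.le h3 (by norm_num)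
        _ = _ := by rw [← Real.rpow_natCast, ← Real.rpow_mul hx0.le]; norm_num
    have h5 : K6 * (x : ℝ) ^ (-(1 / 4) : ℝ) ≤ (s : ℝ) ^ (-(1 / 80) : ℝ) := by
      calc K6 * (x : ℝ) ^ (-(1 / 4) : ℝ) ≤ (x : ℝ) ^ (3 / 16 : ℝ) * (x : ℝ) ^ (-(1 / 4) : ℝ) :=
            mul_le_mul_of_nonneg_right h1 (by positivity)
        _ = (x : ℝ) ^ (-(1 / 16) : ℝ) := by rw [← Real.rpow_add hx0]; norm_num
        _ = ((x : ℝ) ^ (1 / 16 : ℝ))⁻¹ := by rw [← Real.rpow_neg hx0.le]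
        _ ≤ ((s : ℝ) ^ (1 / 80 : ℝ))⁻¹ := inv_anti₀ (by positivity) h4
        _ = _ := by rw [← Real.rpow_neg hs0.le]
    calc (s : ℝ) ^ (-2 : ℝ) * (K6 * (x : ℝ) ^ (-(1 / 4) : ℝ))
        ≤ (s : ℝ) ^ (-2 : ℝ) * (s : ℝ) ^ (-(1 / 80) : ℝ) :=
          mul_le_mul_of_nonneg_left h5 (by positivity)
      _ = _ := by rw [← Real.rpow_add hs0]; norm_num
  · exact Real.rpow_le_rpow_of_exponent_le hs1 (by norm_num)
  · calc (s : ℝ) ^ (-2 - 1 / 80 : ℝ) ≤ (s : ℝ) ^ (-1 : ℝ) :=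
          Real.rpow_le_rpow_of_exponent_le hs1 (by norm_num)
      _ = 1 / s := by rw [Real.rpow_neg_one, one_div]
  · have h1 := hsr.low
    rw [div_le_div_iff₀ (by positivity) (by positivity)]
    nlinarith
end Pool.Agent.H26.AM
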